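import Mathlib
import Pool.Agent.Lib.helper7.SubLat

set_option autoImplicit false

namespace Pool.Agent.Results.MP_d4b74c_al.NotFinAx

open FirstOrder Pool.Agent.Lib.helper7.SubLat

/-- No finite set of first-order sentences in the language of lattices specifies the class of
lattices embeddable in subspace lattices of vector spaces over division rings. -/
theorem result : ¬ ∃ T : Set latL.Sentence, T.Finite ∧
    ∀ (L : Type) [Lattice L], InDiv L ↔ ∀ φ ∈ T, L ⊨ φ :=
  not_finite (fun L _ => InDiv L) (fun _ _ h => h) fun _ _ h => h.inDiv

end Pool.Agent.Results.MP_d4b74c_al.NotFinAx
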